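import Pool.Agent.W809.DN.Stms

/-!
# Project DN, parts SLO and INF
-/

set_option autoImplicit false

open Finset Filter Topology

namespace Pool.Agent.W806.DN

open Pool.Agent.W809.DN

open Classical in
theorem slo : S_SLO := by
  intro c hc
  let P : ℕ → ℕ → Prop := fun N H => ∀ h ≤ H, ∀ N', N ≤ N' → H ^ 2 ≤ c h N'
  let g : ℕ → ℕ := fun N => Nat.findGreatest (P N) N
  have hP0 : ∀ N, P N 0 := fun N h _ N' _ => by simp
  have hg : ∀ N, P N (g N) := fun N => Nat.findGreatest_spec (Nat.zero_le N) (hP0 N)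
  have hgm : Monotone g := by
    intro N N2 hN
    refine Nat.findGreatest_mono ?_ hN
    intro H hH h hh N' hN'
    exact hH h hh N' (hN.trans hN')
  have hgt : Tendsto g atTop atTop := by
    rw [tendsto_atTop_atTop]
    intro H
    have h1 : ∀ᶠ N in atTop, ∀ h ∈ Finset.range (H + 1), H ^ 2 ≤ c h N := by
      rw [Filter.eventually_all_finset]
      intro h _
      exact (hc h).eventually_ge_atTop _
    obtain ⟨N0, hN0⟩ := eventually_atTop.1 h1
    refine ⟨max N0 H, fun N hN => ?_⟩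
    refine Nat.le_findGreatest (le_of_max_le_right hN) ?_
    intro h hh N' hN'
    exact hN0 N' ((le_of_max_le_left hN).trans hN') h (Finset.mem_range.2 (Nat.lt_succ_of_le hh))
  have hgr : Tendsto (fun N => (g N : ℝ)) atTop atTop := tendsto_natCast_atTop_atTop.comp hgt
  refine ⟨fun N => 1 / ((g N : ℝ) + 2), ?_, ?_, ?_, ?_, ?_⟩
  · intro s
    have h0 : (0 : ℝ) ≤ g s := Nat.cast_nonneg _
    refine ⟨by positivity, ?_⟩
    exact one_div_le_one_div_of_le (by norm_num) (by linarith)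
  · intro a b hab
    have h0 : (0 : ℝ) ≤ g a := Nat.cast_nonneg _
    have h1 : (g a : ℝ) ≤ g b := by exact_mod_cast hgm hab
    exact one_div_le_one_div_of_le (by positivity) (by linarith)
  · intro s
    positivity
  · exact (tendsto_const_nhds (x := (1 : ℝ))).div_atTop (tendsto_atTop_add_const_right _ 2 hgr)
  · intro h
    have h1 : Tendsto (fun N => (g N : ℝ) - 2) atTop atTop :=
      tendsto_atTop_add_const_right _ (-2) hgr
    refine tendsto_atTop_mono' _ ?_ h1
    filter_upwards [hgt.eventually_ge_atTop h] with N hN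
    have h2 : (g N) ^ 2 ≤ c h N := hg N h hN N le_rfl
    have h3 : ((g N : ℝ)) ^ 2 ≤ c h N := by exact_mod_cast h2
    have h4 : (0 : ℝ) ≤ g N := Nat.cast_nonneg _
    have h5 : (0 : ℝ) < (g N : ℝ) + 2 := by positivity
    calc (g N : ℝ) - 2 ≤ 1 / ((g N : ℝ) + 2) * (g N : ℝ) ^ 2 := by
          rw [one_div, inv_mul_eq_div, le_div_iff₀ h5]
          nlinarith
      _ ≤ 1 / ((g N : ℝ) + 2) * (c h N : ℝ) := by
          exact mul_le_mul_of_nonneg_left h3 (by positivity)

theorem nd_mul {r : ℕ} (hr : 2 ≤ r) {x : ℝ} (hx : nd x < 1 / (2 * (r : ℝ))) :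
    nd (x * r) = r * nd x := by
  have hr0 : (0 : ℝ) < r := by
    have : (2 : ℝ) ≤ r := by exact_mod_cast hr
    linarith
  have h1 : |x * r - ((round x * r : ℤ) : ℝ)| < 1 / 2 := by
    have : x * r - ((round x * r : ℤ) : ℝ) = (x - round x) * r := by push_cast; ring
    rw [this, abs_mul, abs_of_pos hr0]
    unfold nd at hx
    calc |x - round x| * r < 1 / (2 * (r : ℝ)) * r := by
          exact mul_lt_mul_of_pos_right hx hr0
      _ = 1 / 2 := by field_simp
  have h2 : round (x * r) = round x * r := by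
    have h3 : round (x * r - ((round x * r : ℤ) : ℝ)) = 0 := by
      rw [round_eq_zero_iff]
      rw [abs_lt] at h1
      exact ⟨by linarith [h1.1], by linarith [h1.2]⟩
    rw [round_sub_intCast] at h3
    linarith
  unfold nd
  rw [h2]
  have : x * r - ((round x * r : ℤ) : ℝ) = (x - round x) * r := by push_cast; ring
  rw [this, abs_mul, abs_of_pos hr0, mul_comm]

theorem inf_set (r : ℕ) (hr : 2 ≤ r) (β : ℝ) (hβ : Irrational β) :
    {k : ℕ | 1 / (2 * (r : ℝ)) ≤ nd (β * (r : ℝ) ^ k)}.Infinite := by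
  intro hfin
  obtain ⟨k0, hk0⟩ := hfin.bddAbove
  have hr1 : (2 : ℝ) ≤ r := by exact_mod_cast hr
  have h1 : ∀ i, nd (β * (r : ℝ) ^ (k0 + 1 + i)) < 1 / (2 * (r : ℝ)) := by
    intro i
    by_contra hcon
    push Not at hcon
    have := hk0 (show k0 + 1 + i ∈ {k : ℕ | 1 / (2 * (r : ℝ)) ≤ nd (β * (r : ℝ) ^ k)} from hcon)
    omega
  have h2 : ∀ i, nd (β * (r : ℝ) ^ (k0 + 1 + i)) = (r : ℝ) ^ i * nd (β * (r : ℝ) ^ (k0 + 1)) := by
    intro i
    induction i with
    | zero => simp
    | succ i ih =>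
      rw [show k0 + 1 + (i + 1) = (k0 + 1 + i) + 1 by ring, pow_succ, ← mul_assoc,
        nd_mul hr (h1 i), ih]
      ring
  have h3 : 0 < nd (β * (r : ℝ) ^ (k0 + 1)) := by
    have hirr : Irrational (β * (r : ℝ) ^ (k0 + 1)) := by
      have := hβ.mul_natCast (m := r ^ (k0 + 1)) (by positivity)
      push_cast at this
      exact this
    unfold nd
    rw [abs_pos, sub_ne_zero]
    exact hirr.ne_int _
  obtain ⟨i, hi⟩ := pow_unbounded_of_one_lt (1 / nd (β * (r : ℝ) ^ (k0 + 1)))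
    (by linarith : (1 : ℝ) < r)
  have h4 := nd_le_half (β * (r : ℝ) ^ (k0 + 1 + i))
  rw [h2 i] at h4
  rw [div_lt_iff₀ h3] at hi
  linarith

theorem inf : S_INF := by
  classical
  intro r hr β hβ
  rw [tendsto_atTop_atTop]
  intro m
  obtain ⟨t, ht1, ht2⟩ := (inf_set r hr β hβ).exists_subset_card_eq m
  obtain ⟨K, hK⟩ := t.exists_nat_subset_range
  refine ⟨K * K, fun N hN => ?_⟩
  have hs : K ≤ Nat.sqrt N := Nat.le_sqrt.2 hN
  unfold cnt
  rw [← ht2]
  refine Finset.card_le_card ?_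
  intro k hk
  rw [Finset.mem_filter, Finset.mem_range]
  exact ⟨(Finset.mem_range.1 (hK hk)).trans_le hs, ht1 (by exact_mod_cast hk)⟩

end Pool.Agent.W806.DN
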